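import Pool.Agent.Helper73.KT.Ops

/-!
# The subspace `pairs 1` (project K'', for block B8b)
-/

set_option autoImplicit false

open Matrix H77MT Pool.Agent.Helper79.KN Pool.Agent.Helper33.KN

namespace Pool.Agent.Helper48.KT

open Pool.Agent.Helper73.KT

variable {X n K ι : Type} [Fintype n] [DecidableEq n] [Field K] [Fintype ι] [DecidableEq ι]

theorem le_one (i : ι → X × Bool) (q : ℕ) : pairs K n i (q + 1) ≤ pairs K n i 1 := by
  refine Submodule.span_le.2 ?_
  rintro M ⟨f, g, hinj, hlab, N, hN, hM⟩
  rw [Sum.elim_injective] at hinj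
  obtain ⟨h1, h2, h3⟩ := hinj
  refine Submodule.subset_span ⟨fun _ => f 0, fun _ => g 0, ?_, fun _ => hlab 0,
    fun s => if ∀ j : Fin q, s (f j.succ) = s (g j.succ) then N s else 0, ?_, ?_⟩
  · rw [Sum.elim_injective]
    exact ⟨Function.injective_of_subsingleton _, Function.injective_of_subsingleton _, fun _ _ => h3 0 0⟩
  · intro s t hst
    have hN' : N s = N t := hN s t fun a ha => hst a fun _ => ha 0
    have hf : ∀ j : Fin q, s (f j.succ) = t (f j.succ) := fun j =>
      hst _ fun _ => ⟨fun h => (Fin.succ_ne_zero j) (h1 h), h3 _ _⟩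
    have hg : ∀ j : Fin q, s (g j.succ) = t (g j.succ) := fun j =>
      hst _ fun _ => ⟨fun h => h3 _ _ h.symm, fun h => (Fin.succ_ne_zero j) (h2 h)⟩
    simp only [hf, hg, hN']
  · intro s
    rw [hM s]
    by_cases h0 : s (f 0) = s (g 0)
    · rw [if_pos (fun _ : Fin 1 => h0)]
      have h4 : (∀ j : Fin (q + 1), s (f j) = s (g j)) ↔ ∀ j : Fin q, s (f j.succ) = s (g j.succ) := by
        rw [Fin.forall_fin_succ]
        exact ⟨fun h => h.2, fun h => ⟨h0, h⟩⟩
      simp only [h4]
    · rw [if_neg (fun h : ∀ j : Fin (q + 1), s (f j) = s (g j) => h0 (h 0)),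
        if_neg (fun h : ∀ _ : Fin 1, s (f 0) = s (g 0) => h0 (h 0))]

theorem one_eq [DecidableEq X] [Nonempty n] {i : ι → X × Bool} {M : (ι → n) → K} (hM : M ∈ pairs K n i 1) :
    ∃ F : ι → ι → (ι → n) → K, M = ∑ a, ∑ b, if a ≠ b ∧ i b = ((i a).1, !(i a).2) then con a b (F a b) else 0 := by
  classical
  refine Submodule.span_induction ?_ ?_ ?_ ?_ hM
  · rintro M ⟨f, g, hinj, hlab, N, hN, hM⟩
    rw [Sum.elim_injective] at hinj
    obtain ⟨-, -, h3⟩ := hinj
    set a₀ := f 0 with ha₀
    set b₀ := g 0 with hb₀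
    have hab : a₀ ≠ b₀ := h3 0 0
    set d₀ : n := Classical.arbitrary n with hd₀
    refine ⟨fun a b => if a = a₀ ∧ b = b₀ then (fun s => if s a₀ = d₀ then N s else 0) else 0, ?_⟩
    have h1 : ∀ a b, (if a ≠ b ∧ i b = ((i a).1, !(i a).2) then
        con a b (if a = a₀ ∧ b = b₀ then (fun s => if s a₀ = d₀ then N s else 0) else (0 : (ι → n) → K)) else 0) =
        if a = a₀ then (if b = b₀ then M else 0) else 0 := by
      intro a b
      by_cases ha : a = a₀
      · by_cases hb : b = b₀
        · rw [if_pos ha, if_pos hb, if_pos (⟨ha, hb⟩ : a = a₀ ∧ b = b₀), ha, hb, if_pos ⟨hab, hlab 0⟩]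
          funext s
          change (if s a₀ = s b₀ then ∑ d, (if (Function.update (Function.update s a₀ d) b₀ d) a₀ = d₀ then
            N (Function.update (Function.update s a₀ d) b₀ d) else 0) else 0) = M s
          rw [hM s]
          by_cases hs : s a₀ = s b₀
          · have hj : ∀ j : Fin 1, s (f j) = s (g j) := by
              intro j
              rw [Subsingleton.elim j 0]
              exact hs
            rw [if_pos hs, if_pos hj]
            have h4 : ∀ d, (Function.update (Function.update s a₀ d) b₀ d) a₀ = d := by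
              intro d
              rw [Function.update_of_ne hab, Function.update_self]
            simp only [h4]
            rw [Finset.sum_ite_eq' Finset.univ d₀, if_pos (Finset.mem_univ _)]
            refine hN _ _ fun c hc => ?_
            have hc0 := hc 0
            rw [Function.update_of_ne hc0.2, Function.update_of_ne hc0.1]
          · have hj : ¬ ∀ j : Fin 1, s (f j) = s (g j) := fun h => hs (h 0)
            rw [if_neg hs, if_neg hj]
        · rw [if_pos ha, if_neg hb, if_neg (fun h : a = a₀ ∧ b = b₀ => hb h.2), map_zero, ite_self]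
      · rw [if_neg ha, if_neg (fun h : a = a₀ ∧ b = b₀ => ha h.1), map_zero, ite_self]
    rw [Finset.sum_congr rfl fun a _ => Finset.sum_congr rfl fun b _ => h1 a b]
    simp
  · exact ⟨fun _ _ => 0, by simp⟩
  · rintro M M' - - ⟨F, hF⟩ ⟨F', hF'⟩
    refine ⟨fun a b => F a b + F' a b, ?_⟩
    rw [hF, hF', ← Finset.sum_add_distrib]
    refine Finset.sum_congr rfl fun a _ => ?_
    rw [← Finset.sum_add_distrib]
    refine Finset.sum_congr rfl fun b _ => ?_
    split_ifs
    · rw [map_add]
    · rw [add_zero]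
  · rintro z M - ⟨F, hF⟩
    refine ⟨fun a b => z • F a b, ?_⟩
    rw [hF, Finset.smul_sum]
    refine Finset.sum_congr rfl fun a _ => ?_
    rw [Finset.smul_sum]
    refine Finset.sum_congr rfl fun b _ => ?_
    split_ifs
    · rw [map_smul]
    · rw [smul_zero]

end Pool.Agent.Helper48.KT
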