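import Pool.Agent.Helper9.KT.Casimir
import Pool.Agent.Helper8.KT.PL
import Pool.Agent.Helper33.KT.Contr
import Pool.Agent.Helper48.KT.One

/-!
# Positivity: an element of `pairs 1` whose contractions are in `pairs q` is in `pairs (q + 1)` (project K'', block B8b)
-/

set_option autoImplicit false

open Matrix H77MT Pool.Agent.Helper79.KN Pool.Agent.Helper33.KN

namespace Pool.Agent.Helper48.KT

open Pool.Agent.Helper73.KT

section pos

variable {n ι : Type} [Fintype n] [DecidableEq n] [Fintype ι] [DecidableEq ι]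

/-- the index with the value `d` at `a` and `b` -/
def extR {a b : ι} (s : Rest a b → n) (d : n) : ι → n := fun c => if h : c ≠ a ∧ c ≠ b then s ⟨c, h⟩ else d

theorem extR_a {a b : ι} (s : Rest a b → n) (d : n) : extR s d a = d := dif_neg fun h => h.1 rfl

theorem extR_b {a b : ι} (s : Rest a b → n) (d : n) : extR s d b = d := dif_neg fun h => h.2 rfl

theorem extR_rest {a b : ι} (s : Rest a b → n) (d : n) (c : Rest a b) : extR s d c.1 = s c := dif_pos c.2

theorem extR_update {a b : ι} (s : Rest a b → n) (d d' : n) :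
    Function.update (Function.update (extR s d) a d') b d' = extR s d' := by
  funext c
  by_cases hb : c = b
  · subst hb
    rw [Function.update_self, extR_b]
  rw [Function.update_of_ne hb]
  by_cases ha : c = a
  · subst ha
    rw [Function.update_self, extR_a]
  rw [Function.update_of_ne ha]
  have h1 : extR s d c = s ⟨c, ha, hb⟩ := dif_pos ⟨ha, hb⟩
  have h2 : extR s d' c = s ⟨c, ha, hb⟩ := dif_pos ⟨ha, hb⟩
  rw [h1, h2]

theorem contr_eq {K : Type} [Field K] {a b : ι} (M : (ι → n) → K) (s : Rest a b → n) :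
    contr a b M s = ∑ d, M (extR s d) := rfl

theorem con_extR {K : Type} [Field K] {a b : ι} (M : (ι → n) → K) (s : Rest a b → n) (d : n) :
    con a b M (extR s d) = contr a b M s := by
  change (if extR s d a = extR s d b then _ else _) = _
  rw [if_pos (by rw [extR_a, extR_b]), contr_eq]
  exact Finset.sum_congr rfl fun d' _ => by rw [extR_update]

theorem sum_diag {a b : ι} (g : (ι → n) → ℚ) (hg : ∀ s, s a ≠ s b → g s = 0) :
    ∑ s, g s = ∑ s : Rest a b → n, ∑ d, g (extR s d) := by
  rw [← Fintype.sum_prod_type' (f := fun (s : Rest a b → n) (d : n) => g (extR s d))]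
  symm
  refine Finset.sum_of_injOn (fun p : (Rest a b → n) × n => extR p.1 p.2) ?_ (fun _ _ => Finset.mem_coe.2 (Finset.mem_univ _)) ?_
    fun _ _ => rfl
  · rintro ⟨s, d⟩ - ⟨s', d'⟩ - h
    have h1 : extR s d = extR s' d' := h
    have h2 : d = d' := by
      have := congrFun h1 a
      rwa [extR_a, extR_a] at this
    have h3 : s = s' := by
      funext c
      have := congrFun h1 c.1
      rwa [extR_rest, extR_rest] at this
    rw [h2, h3]
  · intro s _ hs
    refine hg s fun hab => hs ?_
    refine ⟨(fun c => s c.1, s a), Finset.mem_coe.2 (Finset.mem_univ _), ?_⟩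
    funext c
    change extR (fun c : Rest a b => s c.1) (s a) c = s c
    by_cases hc : c ≠ a ∧ c ≠ b
    · exact dif_pos hc
    · have h1 : extR (fun c : Rest a b => s c.1) (s a) c = s a := dif_neg hc
      rw [h1]
      by_cases ha : c = a
      · rw [ha]
      · have hb : c = b := by
          by_contra hb
          exact hc ⟨ha, hb⟩
        rw [hb, hab]

theorem inner_con {a b : ι} (M F : (ι → n) → ℚ) :
    ∑ s, M s * con a b F s = ∑ s : Rest a b → n, contr a b M s * contr a b F s := by
  rw [sum_diag (a := a) (b := b) (fun s => M s * con a b F s)]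
  · refine Finset.sum_congr rfl fun s _ => ?_
    rw [contr_eq M, Finset.sum_mul]
    exact Finset.sum_congr rfl fun d _ => by rw [con_extR]
  · intro s hs
    change M s * (if s a = s b then _ else 0) = 0
    rw [if_neg hs, mul_zero]

/-- positivity over the rational numbers -/
theorem pos_rat (D : ι → ι → Prop) [∀ a b, Decidable (D a b)] (M : (ι → n) → ℚ) (F : ι → ι → (ι → n) → ℚ)
    (hM : M = ∑ a, ∑ b, if D a b then con a b (F a b) else 0)
    (hQ : (∑ a, ∑ b, if D a b then con a b M else 0) = 0) : M = 0 := by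
  have h1 : ∑ a, ∑ b, (if D a b then ∑ s : Rest a b → n, (contr a b M s) ^ 2 else 0) = 0 := by
    have h2 : ∑ s, M s * (∑ a, ∑ b, if D a b then con a b M else 0) s = 0 := by
      rw [hQ]
      simp
    refine Eq.trans ?_ h2
    have h3 : ∀ s, M s * (∑ a, ∑ b, if D a b then con a b M else 0) s =
        ∑ a, ∑ b, if D a b then M s * con a b M s else 0 := by
      intro s
      rw [Finset.sum_apply, Finset.mul_sum]
      refine Finset.sum_congr rfl fun a _ => ?_
      rw [Finset.sum_apply, Finset.mul_sum]
      refine Finset.sum_congr rfl fun b _ => ?_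
      split_ifs
      · rfl
      · simp
    have h3' : ∑ s, M s * (∑ a, ∑ b, if D a b then con a b M else 0) s =
        ∑ s, ∑ a, ∑ b, (if D a b then M s * con a b M s else 0) := Finset.sum_congr rfl fun s _ => h3 s
    symm
    rw [h3', Finset.sum_comm]
    refine Finset.sum_congr rfl fun a _ => ?_
    rw [Finset.sum_comm]
    refine Finset.sum_congr rfl fun b _ => ?_
    split_ifs
    · rw [inner_con]
      exact Finset.sum_congr rfl fun s _ => by rw [sq]
    · simp
  have h4 : ∀ a b, D a b → contr a b M = 0 := by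
    intro a b hab
    have h5 : ∀ a b, 0 ≤ (if D a b then ∑ s : Rest a b → n, (contr a b M s) ^ 2 else 0) := by
      intro a b
      split_ifs
      · exact Finset.sum_nonneg fun s _ => sq_nonneg _
      · exact le_rfl
    have h6 := (Finset.sum_eq_zero_iff_of_nonneg (s := Finset.univ)
      (f := fun a => ∑ b, (if D a b then ∑ s : Rest a b → n, (contr a b M s) ^ 2 else 0))
      fun a _ => Finset.sum_nonneg fun b _ => h5 a b).1 h1 a (Finset.mem_univ a)
    have h7 := (Finset.sum_eq_zero_iff_of_nonneg (s := Finset.univ)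
      (f := fun b => (if D a b then ∑ s : Rest a b → n, (contr a b M s) ^ 2 else 0))
      fun b _ => h5 a b).1 h6 b (Finset.mem_univ b)
    rw [if_pos hab] at h7
    funext s
    have h8 := (Finset.sum_eq_zero_iff_of_nonneg fun s _ => sq_nonneg _).1 h7 s (Finset.mem_univ s)
    exact pow_eq_zero_iff (two_ne_zero) |>.1 h8
  have h5 : ∑ s, M s * M s = 0 := by
    have h6 : ∀ s, M s * M s = ∑ a, ∑ b, if D a b then M s * con a b (F a b) s else 0 := by
      intro s
      have h7 : M s * M s = M s * (∑ a, ∑ b, if D a b then con a b (F a b) else 0) s := by rw [← hM]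
      rw [h7, Finset.sum_apply, Finset.mul_sum]
      refine Finset.sum_congr rfl fun a _ => ?_
      rw [Finset.sum_apply, Finset.mul_sum]
      refine Finset.sum_congr rfl fun b _ => ?_
      split_ifs
      · rfl
      · simp
    rw [Finset.sum_congr rfl fun s _ => h6 s, Finset.sum_comm]
    refine Finset.sum_eq_zero fun a _ => ?_
    rw [Finset.sum_comm]
    refine Finset.sum_eq_zero fun b _ => ?_
    split_ifs with h
    · rw [inner_con, h4 a b h]
      simp
    · simp
  funext s
  have h6 := (Finset.sum_eq_zero_iff_of_nonneg fun s _ => mul_self_nonneg (M s)).1 h5 s (Finset.mem_univ s)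
  exact mul_self_eq_zero.1 h6

/-- positivity over a field of characteristic zero -/
theorem pos_field {K : Type} [Field K] [CharZero K] (D : ι → ι → Prop) [∀ a b, Decidable (D a b)] (M : (ι → n) → K)
    (F : ι → ι → (ι → n) → K) (hM : M = ∑ a, ∑ b, if D a b then con a b (F a b) else 0)
    (hQ : (∑ a, ∑ b, if D a b then con a b M else 0) = 0) : M = 0 := by
  have hcon : ∀ (φ : K →ₗ[ℚ] ℚ) (a b : ι) (N : (ι → n) → K), con a b (fun s => φ (N s)) = fun s => φ (con a b N s) := by
    intro φ a b N
    funext s
    change (if s a = s b then _ else _) = φ (if s a = s b then _ else _)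
    split_ifs
    · rw [map_sum]
    · rw [map_zero]
  have hsum : ∀ (φ : K →ₗ[ℚ] ℚ) (G : ι → ι → (ι → n) → K),
      (fun s => φ ((∑ a, ∑ b, if D a b then con a b (G a b) else 0) s)) =
        ∑ a, ∑ b, if D a b then con a b (fun s => φ (G a b s)) else 0 := by
    intro φ G
    funext s
    rw [Finset.sum_apply, map_sum, Finset.sum_apply]
    refine Finset.sum_congr rfl fun a _ => ?_
    rw [Finset.sum_apply, map_sum, Finset.sum_apply]
    refine Finset.sum_congr rfl fun b _ => ?_
    split_ifs
    · rw [hcon]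
    · simp
  funext s
  refine (Module.forall_dual_apply_eq_zero_iff ℚ (M s)).1 fun φ => ?_
  have h1 := pos_rat D (fun s => φ (M s)) (fun a b s => φ (F a b s)) (by
      rw [← hsum φ F, ← hM]) (by
      rw [← hsum φ fun _ _ => M, hQ]
      funext s
      simp)
  exact congrFun h1 s

end pos

section succ

variable {X n K ι : Type} [Fintype X] [DecidableEq X] [Fintype n] [DecidableEq n] [Field K] [CharZero K] [Fintype ι]
  [DecidableEq ι]

/-- the sum of the pairings of contractions -/
theorem sum_con_mem (i : ι → X × Bool) (q : ℕ) {M : (ι → n) → K} (hM : M ∈ pairs K n i q) :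
    (∑ a, ∑ b, if a ≠ b ∧ i b = ((i a).1, !(i a).2) then con a b M else 0) ∈ pairs K n i q := by
  have h1 : ∀ x, (∑ a, if (i a).1 = x then
      ((Fintype.card n : K) • M + ∑ b, if b ≠ a ∧ (i b).1 = x then
        (if (i b).2 = (i a).2 then sw a b M else -con a b M) else 0) else 0) ∈ pairs K n i q := by
    intro x
    rw [← Pool.Agent.Helper9.KT.casimir]
    exact Submodule.sum_mem _ fun c _ => Submodule.sum_mem _ fun d _ => Pool.Agent.Helper8.KT.pairs_lie i q x c d _ (Pool.Agent.Helper8.KT.pairs_lie i q x d c _ hM)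
  have h2 : (∑ x, ∑ a, if (i a).1 = x then
      ((Fintype.card n : K) • M + ∑ b, if b ≠ a ∧ (i b).1 = x then
        (if (i b).2 = (i a).2 then sw a b M else -con a b M) else 0) else 0) ∈ pairs K n i q :=
    Submodule.sum_mem _ fun x _ => h1 x
  rw [Finset.sum_comm] at h2
  have h3 : (∑ a, ((Fintype.card n : K) • M + ∑ b, if b ≠ a ∧ (i b).1 = (i a).1 then
        (if (i b).2 = (i a).2 then sw a b M else -con a b M) else 0)) ∈ pairs K n i q := by
    have h4 : (∑ a, ∑ x, if (i a).1 = x then
      ((Fintype.card n : K) • M + ∑ b, if b ≠ a ∧ (i b).1 = x then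
        (if (i b).2 = (i a).2 then sw a b M else -con a b M) else 0) else 0) =
        ∑ a, ((Fintype.card n : K) • M + ∑ b, if b ≠ a ∧ (i b).1 = (i a).1 then
        (if (i b).2 = (i a).2 then sw a b M else -con a b M) else 0) :=
      Finset.sum_congr rfl fun a _ => by rw [Finset.sum_ite_eq, if_pos (Finset.mem_univ _)]
    rw [← h4]
    exact h2
  have h5 : (∑ a, ∑ b, if a ≠ b ∧ i b = ((i a).1, !(i a).2) then con a b M else 0) =
      (∑ a : ι, ((Fintype.card n : K) • M + ∑ b, if b ≠ a ∧ i b = i a then sw a b M else 0)) -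
      ∑ a, ((Fintype.card n : K) • M + ∑ b, if b ≠ a ∧ (i b).1 = (i a).1 then
        (if (i b).2 = (i a).2 then sw a b M else -con a b M) else 0) := by
    rw [← Finset.sum_sub_distrib]
    refine Finset.sum_congr rfl fun a _ => ?_
    rw [add_sub_add_left_eq_sub, ← Finset.sum_sub_distrib]
    refine Finset.sum_congr rfl fun b _ => ?_
    by_cases hab : b = a
    · subst hab
      simp
    by_cases hx : (i b).1 = (i a).1
    · by_cases hb : (i b).2 = (i a).2
      · have e1 : i b = i a := Prod.ext hx hb
        have e2 : ¬ i b = ((i a).1, !(i a).2) := by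
          intro h
          have := congrArg Prod.snd h
          rw [hb] at this
          simp at this
        rw [if_neg (fun h => e2 h.2), if_pos ⟨hab, e1⟩, if_pos ⟨hab, hx⟩, if_pos hb, sub_self]
      · have e1 : ¬ i b = i a := fun h => hb (by rw [h])
        have e2 : i b = ((i a).1, !(i a).2) := by
          refine Prod.ext hx ?_
          change (i b).2 = !(i a).2
          cases h1 : (i b).2 <;> cases h2 : (i a).2 <;> simp_all
        rw [if_pos ⟨Ne.symm hab, e2⟩, if_neg (fun h => e1 h.2), if_pos ⟨hab, hx⟩, if_neg hb, zero_sub, neg_neg]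
    · have e1 : ¬ i b = i a := fun h => hx (by rw [h])
      have e2 : ¬ i b = ((i a).1, !(i a).2) := fun h => hx (by rw [h])
      rw [if_neg (fun h => e2 h.2), if_neg (fun h => e1 h.2), if_neg (fun h => hx h.2), sub_self]
  rw [h5]
  refine Submodule.sub_mem _ (Submodule.sum_mem _ fun a _ => Submodule.add_mem _ (Submodule.smul_mem _ _ hM)
    (Submodule.sum_mem _ fun b _ => ?_)) h3
  split_ifs with h
  · exact Pool.Agent.Helper8.KT.pairs_sw i q a b h.2.symm _ hM
  · exact Submodule.zero_mem _

end succ

end Pool.Agent.Helper48.KT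

namespace Pool.Agent.Helper73.KT

section succ

variable {X n K ι : Type} [Fintype X] [DecidableEq X] [Fintype n] [DecidableEq n] [Field K] [CharZero K] [Fintype ι]
  [DecidableEq ι]

/-- B8b (positivity): `pairs 1 ∩ ker (∑ con) = 0` by functionals `K → ℚ`; `∑ con` preserves `pairs q` by B3 and B4 -/
theorem pairs_succ [Nonempty n] {i : ι → X × Bool} {q : ℕ} {M : (ι → n) → K} (h1 : M ∈ pairs K n i 1)
    (h : ∀ a b, a ≠ b → i b = ((i a).1, !(i a).2) → contr a b M ∈ pairs K n (fun c : Rest a b => i c.1) q) :
    M ∈ pairs K n i (q + 1) := by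
  classical
  -- the operator
  let Q : ((ι → n) → K) →ₗ[K] ((ι → n) → K) :=
    ∑ a, ∑ b, if a ≠ b ∧ i b = ((i a).1, !(i a).2) then con a b else 0
  have hQ : ∀ N, Q N = ∑ a, ∑ b, if a ≠ b ∧ i b = ((i a).1, !(i a).2) then con a b N else 0 := by
    intro N
    change (∑ a, ∑ b, if a ≠ b ∧ i b = ((i a).1, !(i a).2) then con a b else (0 : ((ι → n) → K) →ₗ[K] _)) N = _
    rw [LinearMap.sum_apply]
    refine Finset.sum_congr rfl fun a _ => ?_
    rw [LinearMap.sum_apply]
    refine Finset.sum_congr rfl fun b _ => ?_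
    split_ifs <;> rfl
  have hinj : ∀ N ∈ pairs K n i 1, Q N = 0 → N = 0 := by
    intro N hN h0
    obtain ⟨F, hF⟩ := Pool.Agent.Helper48.KT.one_eq hN
    rw [hQ] at h0
    exact Pool.Agent.Helper48.KT.pos_field (fun a b => a ≠ b ∧ i b = ((i a).1, !(i a).2)) N F hF h0
  have hmem : ∀ N ∈ pairs K n i (q + 1), Q N ∈ pairs K n i (q + 1) := by
    intro N hN
    rw [hQ]
    exact Pool.Agent.Helper48.KT.sum_con_mem i (q + 1) hN
  have hQM : Q M ∈ pairs K n i (q + 1) := by
    rw [hQ]
    refine Submodule.sum_mem _ fun a _ => Submodule.sum_mem _ fun b _ => ?_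
    split_ifs with hab
    · exact con_of_contr i hab.1 hab.2 q M (h a b hab.1 hab.2)
    · exact Submodule.zero_mem _
  have hsur : Function.Surjective (Q.restrict hmem) := by
    rw [← LinearMap.injective_iff_surjective, ← LinearMap.ker_eq_bot, LinearMap.ker_eq_bot']
    rintro ⟨N, hN⟩ h0
    have h2 : Q N = 0 := congrArg Subtype.val h0
    exact Subtype.ext (hinj N (Pool.Agent.Helper48.KT.le_one i q hN) h2)
  obtain ⟨⟨N, hN⟩, hNM⟩ := hsur ⟨Q M, hQM⟩
  have h2 : Q N = Q M := congrArg Subtype.val hNM
  have h3 : M - N = 0 := hinj _ (Submodule.sub_mem _ h1 (Pool.Agent.Helper48.KT.le_one i q hN)) (by rw [map_sub, h2, sub_self])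
  rw [sub_eq_zero.1 h3]
  exact hN

end succ

end Pool.Agent.Helper73.KT
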