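import Pool.Agent.Helper73.KT.Ops

/-!
# The eigenvalues of the sum of the transpositions of equal labels, and the inequality (project K'', block B5)
-/

set_option autoImplicit false

open Matrix Finset

namespace Pool.Agent.Helper48.KT

/-- An integral eigenvalue, modulo a stable subspace, of a sum of elements of a finite group is bounded by their number. -/
theorem eig_le {K V G P : Type*} [Field K] [CharZero K] [AddCommGroup V] [Module K V] [Group G] [Finite G] [Fintype P]
    (ρ : G →* Module.End K V) (S : Submodule K V) (hS : ∀ g, ∀ m ∈ S, ρ g m ∈ S) (τ : P → G) {v : V} (hv : v ∉ S)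
    (κ : ℤ) (h : ∑ p, ρ (τ p) v - (κ : K) • v ∈ S) : |κ| ≤ Fintype.card P := by
  classical
  have := Fintype.ofFinite G
  obtain ⟨l, hl⟩ : ∃ l : (V ⧸ S) →ₗ[K] K, l (S.mkQ v) ≠ 0 := by
    by_contra hcon
    push Not at hcon
    refine hv ?_
    have h1 := (Module.forall_dual_apply_eq_zero_iff K (S.mkQ v)).1 hcon
    rwa [Submodule.mkQ_apply, Submodule.Quotient.mk_eq_zero] at h1
  obtain ⟨φ, hφ⟩ : ∃ φ : K →ₗ[ℚ] ℚ, φ (l (S.mkQ v)) ≠ 0 := by
    by_contra hcon
    push Not at hcon
    exact hl ((Module.forall_dual_apply_eq_zero_iff ℚ (l (S.mkQ v))).1 hcon)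
  set F : G → ℚ := fun g => φ (l (S.mkQ (ρ g v))) with hF
  have hsum : ∀ g, ∑ p, F (g * τ p) = κ * F g := by
    intro g
    have h1 : S.mkQ (ρ g (∑ p, ρ (τ p) v - (κ : K) • v)) = 0 := by
      rw [Submodule.mkQ_apply, Submodule.Quotient.mk_eq_zero]
      exact hS g _ h
    rw [map_sub, map_sub, map_sum, map_smul, map_sum, map_smul, sub_eq_zero] at h1
    have h2 := congrArg (fun z => φ (l z)) h1
    simp only [map_sum, map_smul] at h2
    have h3 : φ ((κ : K) • l (S.mkQ (ρ g v))) = κ * F g := by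
      have h4 : (κ : K) • l (S.mkQ (ρ g v)) = (κ : ℚ) • l (S.mkQ (ρ g v)) := by
        rw [smul_eq_mul, Rat.smul_def, Rat.cast_intCast]
      rw [h4, map_smul, smul_eq_mul]
    rw [h3] at h2
    rw [← h2]
    refine Finset.sum_congr rfl fun p _ => ?_
    rw [hF]
    simp only [map_mul, Module.End.mul_apply]
  obtain ⟨g, -, hg⟩ := Finset.exists_max_image (Finset.univ : Finset G) (fun g => |F g|) ⟨1, Finset.mem_univ 1⟩
  have hpos : 0 < |F g| := by
    refine lt_of_lt_of_le ?_ (hg 1 (Finset.mem_univ 1))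
    rw [abs_pos, hF]
    simpa using hφ
  have h4 : |(κ : ℚ)| * |F g| ≤ (Fintype.card P : ℚ) * |F g| := by
    rw [← abs_mul, ← hsum g]
    refine (Finset.abs_sum_le_sum_abs _ _).trans ?_
    refine (Finset.sum_le_card_nsmul Finset.univ _ _ fun p _ => hg (g * τ p) (Finset.mem_univ _)).trans ?_
    rw [nsmul_eq_mul, Finset.card_univ]
  have h5 := le_of_mul_le_mul_right h4 hpos
  exact_mod_cast h5

theorem sum_sq_le {ι : Type*} (t : Finset ι) (f : ι → ℤ) (hf : ∀ i, 0 ≤ f i) :
    ∑ i ∈ t, (f i) ^ 2 ≤ (∑ i ∈ t, f i) ^ 2 := by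
  classical
  induction t using Finset.induction_on with
  | empty => simp
  | insert c t hc ih =>
    rw [Finset.sum_insert hc, Finset.sum_insert hc]
    have h4 : 0 ≤ ∑ d ∈ t, f d := Finset.sum_nonneg fun d _ => hf d
    nlinarith [mul_nonneg (hf c) h4]

/-- The permutations of the factors. -/
def permRep {n K ι : Type} [Field K] : Equiv.Perm ι →* Module.End K ((ι → n) → K) where
  toFun σ :=
    { toFun := fun M s => M (s ∘ σ)
      map_add' := fun M N => rfl
      map_smul' := fun z M => rfl }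
  map_one' := rfl
  map_mul' σ τ := rfl

end Pool.Agent.Helper48.KT

open Matrix H77MT Pool.Agent.Helper79.KN Pool.Agent.Helper33.KN

namespace Pool.Agent.Helper73.KT

section B5
/-! B5 (eigenvalues of the sum of transpositions): functional `K → ℚ`, a coordinate with maximal absolute value. -/
variable {X n K ι : Type} [Fintype n] [DecidableEq n] [DecidableEq X] [Field K] [CharZero K] [Fintype ι] [DecidableEq ι]

theorem kappa_le (i : ι → X × Bool) (x : X) {S : Submodule K ((ι → n) → K)}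
    (hS : ∀ a b, i a = i b → ∀ M ∈ S, sw a b M ∈ S) {M : (ι → n) → K} (hM : M ∉ S) {κ : ℤ}
    (h : (∑ a, ∑ b, if (i a).1 = x ∧ b ≠ a ∧ i b = i a then sw a b M else 0) - (κ : K) • M ∈ S) :
    |κ| ≤ ((Finset.univ.filter fun p : ι × ι => (i p.1).1 = x ∧ p.2 ≠ p.1 ∧ i p.2 = i p.1).card : ℤ) := by
  classical
  set G : Subgroup (Equiv.Perm ι) := Subgroup.closure {σ | ∃ a b, i a = i b ∧ σ = Equiv.swap a b} with hG
  set ρ : G →* Module.End K ((ι → n) → K) := (Pool.Agent.Helper48.KT.permRep (n := n) (K := K) (ι := ι)).comp G.subtype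
    with hρ
  have hstab : ∀ g : G, ∀ m ∈ S, ρ g m ∈ S := by
    rintro ⟨g, hg⟩
    change ∀ m ∈ S, Pool.Agent.Helper48.KT.permRep g m ∈ S
    induction hg using Subgroup.closure_induction with
    | mem σ hσ =>
      obtain ⟨a, b, hab, rfl⟩ := hσ
      exact fun m hm => hS a b hab m hm
    | one => exact fun m hm => hm
    | mul σ τ _ _ h1 h2 =>
      intro m hm
      rw [map_mul, Module.End.mul_apply]
      exact h1 _ (h2 m hm)
    | inv σ hσ h1 =>
      intro m hm
      -- the inverse is a power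
      obtain ⟨k, hk⟩ : ∃ k : ℕ, σ⁻¹ = σ ^ k := by
        refine ⟨orderOf σ - 1, ?_⟩
        have h2 : 0 < orderOf σ := orderOf_pos σ
        rw [inv_eq_iff_mul_eq_one, ← pow_succ', Nat.sub_add_cancel h2, pow_orderOf_eq_one]
      rw [hk, map_pow]
      clear hk
      induction k with
      | zero => rw [pow_zero]; exact hm
      | succ k ih =>
        rw [pow_succ', Module.End.mul_apply]
        exact h1 _ ih
  have hcard := Pool.Agent.Helper48.KT.eig_le (P := {p : ι × ι // (i p.1).1 = x ∧ p.2 ≠ p.1 ∧ i p.2 = i p.1}) ρ S hstab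
    (fun p => ⟨Equiv.swap p.1.1 p.1.2, Subgroup.subset_closure ⟨p.1.1, p.1.2, p.2.2.2.symm, rfl⟩⟩) hM κ (by
      have h1 : ∑ p : {p : ι × ι // (i p.1).1 = x ∧ p.2 ≠ p.1 ∧ i p.2 = i p.1}, sw p.1.1 p.1.2 M =
          ∑ a, ∑ b, if (i a).1 = x ∧ b ≠ a ∧ i b = i a then sw a b M else 0 := by
        rw [← Fintype.sum_prod_type' (f := fun a b => if (i a).1 = x ∧ b ≠ a ∧ i b = i a then sw a b M else 0),
          ← Finset.sum_filter, ← Finset.sum_subtype_eq_sum_filter]
        exact Finset.sum_congr (by ext; simp) fun _ _ => rfl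
      have h2 : ∑ p : {p : ι × ι // (i p.1).1 = x ∧ p.2 ≠ p.1 ∧ i p.2 = i p.1},
          ρ ⟨Equiv.swap p.1.1 p.1.2, Subgroup.subset_closure ⟨p.1.1, p.1.2, p.2.2.2.symm, rfl⟩⟩ M =
          ∑ p : {p : ι × ι // (i p.1).1 = x ∧ p.2 ≠ p.1 ∧ i p.2 = i p.1}, sw p.1.1 p.1.2 M := rfl
      rw [h2, h1]
      exact h)
  rw [Fintype.card_subtype] at hcard
  exact hcard

/-- B5b (inequality). `w` the weight, `a` and `b` the numbers of the true and false factors, `r` of the matched indices:
here `p c` and `n c` are the numbers of the true and false factors with the index `c`. -/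
theorem no_match {N : ℕ} (p m : Fin N → ℕ) {k : ℕ} (hk : k ^ 2 < N) (hpm : ∑ c, p c + ∑ c, m c ≤ k) {κ : ℤ}
    (hκ : κ = ∑ c, ((p c : ℤ) - m c) ^ 2 + ∑ c, ∑ d, (if c < d then ((p c : ℤ) - m c) - ((p d : ℤ) - m d) else 0) -
      N * (∑ c, (p c : ℤ) + ∑ c, (m c : ℤ)))
    (hle : |κ| ≤ (∑ c, (p c : ℤ)) * (∑ c, (p c : ℤ) - 1) + (∑ c, (m c : ℤ)) * (∑ c, (m c : ℤ) - 1)) :
    ∀ c, p c = 0 ∨ m c = 0 := by
  set w : Fin N → ℤ := fun c => (p c : ℤ) - m c with hw
  set a : ℤ := ∑ c, (p c : ℤ) with ha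
  set b : ℤ := ∑ c, (m c : ℤ) with hb
  set r : ℕ := ∑ c, min (p c) (m c) with hr
  have hab : ∀ c, |w c| = p c + m c - 2 * (min (p c) (m c) : ℕ) := by
    intro c
    change |(p c : ℤ) - m c| = _
    rcases le_total (p c) (m c) with h | h
    · rw [min_eq_left h, abs_of_nonpos (by omega)]
      ring
    · rw [min_eq_right h, abs_of_nonneg (by omega)]
      ring
  have hsabs : ∑ c, |w c| = a + b - 2 * r := by
    rw [Finset.sum_congr rfl fun c _ => hab c, Finset.sum_sub_distrib, Finset.sum_add_distrib, ← Finset.mul_sum, ha, hb, hr]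
    push_cast
    ring
  have h0 : 0 ≤ ∑ c, |w c| := Finset.sum_nonneg fun c _ => abs_nonneg _
  have hlin : ∑ c, ∑ d, (if c < d then w c - w d else 0) ≤ (N - 1) * ∑ c, |w c| := by
    have h1 : ∑ c, ∑ d, (if c < d then w c - w d else 0) ≤ ∑ c, ∑ d, (if c < d then |w c| + |w d| else 0) := by
      refine Finset.sum_le_sum fun c _ => Finset.sum_le_sum fun d _ => ?_
      split_ifs
      · have h2 := le_abs_self (w c - w d)
        have h3 := abs_sub (w c) (w d)
        linarith
      · exact le_rfl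
    have h2 : ∑ c : Fin N, ∑ d : Fin N, (if c < d then |w c| + |w d| else 0) =
        ∑ c : Fin N, ∑ d : Fin N, (if c < d then |w c| else 0) + ∑ c : Fin N, ∑ d : Fin N, (if d < c then |w c| else 0) := by
      rw [Finset.sum_comm (f := fun c d : Fin N => if d < c then |w c| else 0), ← Finset.sum_add_distrib]
      refine Finset.sum_congr rfl fun c _ => ?_
      rw [← Finset.sum_add_distrib]
      refine Finset.sum_congr rfl fun d _ => ?_
      split_ifs <;> simp
    have h3 : ∑ c : Fin N, ∑ d : Fin N, (if c < d then |w c| else 0) +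
        ∑ c : Fin N, ∑ d : Fin N, (if d < c then |w c| else 0) = (N - 1) * ∑ c, |w c| := by
      rw [← Finset.sum_add_distrib, Finset.mul_sum]
      refine Finset.sum_congr rfl fun c _ => ?_
      rw [← Finset.sum_add_distrib]
      have h4 : ∑ d : Fin N, ((if c < d then |w c| else 0) + (if d < c then |w c| else 0)) =
          ∑ d : Fin N, (|w c| - if d = c then |w c| else 0) := by
        refine Finset.sum_congr rfl fun d _ => ?_
        rcases lt_trichotomy c d with h5 | h5 | h5
        · rw [if_pos h5, if_neg (not_lt.2 h5.le), if_neg h5.ne']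
          ring
        · subst h5
          simp
        · rw [if_neg (not_lt.2 h5.le), if_pos h5, if_neg h5.ne]
          ring
      rw [h4, Finset.sum_sub_distrib, Finset.sum_const, Finset.card_univ, Fintype.card_fin, nsmul_eq_mul,
        Finset.sum_ite_eq' Finset.univ c, if_pos (Finset.mem_univ c)]
      ring
    rw [← h3, ← h2]
    exact h1
  have hsq : ∑ c, (w c) ^ 2 ≤ (∑ c, |w c|) ^ 2 := by
    calc ∑ c, (w c) ^ 2 = ∑ c, |w c| ^ 2 := Finset.sum_congr rfl fun c _ => (sq_abs _).symm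
      _ ≤ _ := Pool.Agent.Helper48.KT.sum_sq_le _ _ fun c => abs_nonneg _
  have hr0 : r = 0 := by
    by_contra hne
    have h1 : (1 : ℤ) ≤ r := by
      have : 1 ≤ r := Nat.one_le_iff_ne_zero.2 hne
      exact_mod_cast this
    have hk' : (k : ℤ) ^ 2 < N := by exact_mod_cast hk
    have hk0 : a + b ≤ k := by
      rw [ha, hb]
      exact_mod_cast hpm
    have ha0 : 0 ≤ a := Finset.sum_nonneg fun c _ => Int.natCast_nonneg _
    have hb0 : 0 ≤ b := Finset.sum_nonneg fun c _ => Int.natCast_nonneg _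
    have h2 : -κ ≤ a * (a - 1) + b * (b - 1) := (neg_le_abs κ).trans hle
    have h3 : κ ≤ (a + b - 2 * r) ^ 2 + (N - 1) * (a + b - 2 * r) - N * (a + b) := by
      rw [hκ, ← hsabs]
      exact sub_le_sub_right (add_le_add hsq hlin) _
    rw [hsabs] at h0
    have h4 : (a + b - 2 * r) ^ 2 ≤ (a + b) ^ 2 := by nlinarith
    have h5 : 0 ≤ a * b := mul_nonneg ha0 hb0
    have h6 : (a + b) ^ 2 ≤ (k : ℤ) ^ 2 := by nlinarith
    have h7 : 2 * (r : ℤ) * (N - 1) ≤ 2 * (a + b) ^ 2 - 2 * (a + b) := by nlinarith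
    have h8 : (1 : ℤ) ≤ N := by nlinarith
    have h9 : 2 * ((N : ℤ) - 1) ≤ 2 * (r : ℤ) * (N - 1) := by nlinarith
    nlinarith
  intro c
  have h1 : min (p c) (m c) = 0 := by
    have h2 := (Finset.sum_eq_zero_iff (s := Finset.univ) (f := fun c => min (p c) (m c))).1
      (by rw [← hr]; exact hr0) c (Finset.mem_univ c)
    exact h2
  omega
end B5

end Pool.Agent.Helper73.KT
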